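import Pool.Agent.X326.Spec.Fou

/-!
# The estimate for spectral subspaces
-/

set_option autoImplicit false

open scoped ComplexConjugate

namespace Pool.Agent.X326.Spec

/-- complex Euclidean space -/
abbrev HC (n : ℕ) : Type := EuclideanSpace ℂ (Fin n)

variable {K n : ℕ}

theorem norm_twist (c : HC n) (e : Fin n → ℂ) (he : ∀ a, ‖e a‖ = 1)
    (u : OrthonormalBasis (Fin n) ℂ (HC n)) : ‖∑ a, (c a * e a) • u a‖ = ‖c‖ := by
  have h1 : ∑ a, (c a * e a) • u a = u.repr.symm (WithLp.toLp 2 fun a => c a * e a) := by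
    rw [← OrthonormalBasis.sum_repr_symm]
  rw [h1, LinearIsometryEquiv.norm_map, EuclideanSpace.norm_eq, EuclideanSpace.norm_eq]
  congr 1
  refine Finset.sum_congr rfl (fun a _ => ?_)
  simp only [norm_mul, he, mul_one]

theorem bilin_bound (u v : OrthonormalBasis (Fin n) ℂ (HC n)) (D : HC n →ₗ[ℂ] HC n) {M : ℝ}
    (hD : ∀ y, ‖D y‖ ≤ M * ‖y‖) (c d : HC n) (e f : Fin n → ℂ) (he : ∀ a, ‖e a‖ = 1)
    (hf : ∀ a, ‖f a‖ = 1) :
    ‖∑ a, ∑ b, conj (c a) * d b * inner ℂ (u a) (D (v b)) * (conj (e a) * f b)‖ ≤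
      ‖c‖ * (M * ‖d‖) := by
  have h1 : ∑ a, ∑ b, conj (c a) * d b * inner ℂ (u a) (D (v b)) * (conj (e a) * f b) =
      inner ℂ (∑ a, (c a * e a) • u a) (D (∑ b, (d b * f b) • v b)) := by
    rw [map_sum, sum_inner]
    refine Finset.sum_congr rfl (fun a _ => ?_)
    rw [inner_sum]
    refine Finset.sum_congr rfl (fun b _ => ?_)
    rw [inner_smul_left, map_smul, inner_smul_right, map_mul]
    ring
  rw [h1]
  calc _ ≤ ‖∑ a, (c a * e a) • u a‖ * ‖D (∑ b, (d b * f b) • v b)‖ := norm_inner_le_norm _ _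
    _ ≤ ‖c‖ * (M * ‖d‖) := by
        rw [norm_twist c e he u]
        refine mul_le_mul_of_nonneg_left ?_ (norm_nonneg _)
        refine (hD _).trans ?_
        rw [norm_twist d f hf v]

/-- the sum of the `L¹` norms -/
noncomputable def LL (K : ℕ) : ℝ := ∑ j : Fin K, Lj j

theorem LL_nonneg (K : ℕ) : 0 ≤ LL K := Finset.sum_nonneg fun j _ => Lj_nonneg j

theorem piece_bound (u v : OrthonormalBasis (Fin n) ℂ (HC n)) (D : HC n →ₗ[ℂ] HC n) {M : ℝ}
    (hD : ∀ y, ‖D y‖ ≤ M * ‖y‖) (c d : HC n) (α β : Fin n → EK K) (j : Fin K) (s : ℝ) :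
    ‖∑ p : Fin n × Fin n, (conj (c p.1) * d p.2 * inner ℂ (u p.1) (D (v p.2))) *
      ps j (s • (α p.1 - β p.2))‖ ≤ Lj j * (‖c‖ * (M * ‖d‖)) := by
  apply mult_bound
  intro t
  rw [Fintype.sum_prod_type]
  have h := bilin_bound u v D hD c d
    (fun a => Complex.exp ((-(2 * Real.pi * (s * inner ℝ t (α a))) : ℝ) * Complex.I))
    (fun b => Complex.exp ((-(2 * Real.pi * (s * inner ℝ t (β b))) : ℝ) * Complex.I))
    (fun a => exp_norm _) (fun b => exp_norm _)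
  refine le_trans (le_of_eq ?_) h
  congr 1
  refine Finset.sum_congr rfl (fun a _ => Finset.sum_congr rfl (fun b _ => ?_))
  congr 1
  rw [← Complex.exp_conj, ← Complex.exp_add]
  congr 1
  rw [map_mul, Complex.conj_ofReal, Complex.conj_I, inner_smul_right, inner_sub_right]
  push_cast
  ring

/-- the estimate for a vector in the intersection of the spectral subspaces -/
theorem vector_bound (u v : OrthonormalBasis (Fin n) ℂ (HC n)) (D : Fin K → HC n →ₗ[ℂ] HC n)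
    {M : ℝ} (hD : ∀ j y, ‖D j y‖ ≤ M * ‖y‖) (α β : Fin n → EK K)
    (hY : ∀ j a b, inner ℂ (u a) (D j (v b)) = ((α a j - β b j : ℝ) : ℂ) * inner ℂ (u a) (v b))
    {δ : ℝ} (hδ : 0 < δ) (x : HC n)
    (hx : ∀ a b, inner ℂ (u a) x ≠ 0 → inner ℂ (v b) x ≠ 0 → δ ≤ ‖α a - β b‖) :
    ‖x‖ ^ 2 ≤ 2 * LL K * M / δ * ‖x‖ ^ 2 := by
  let c : HC n := u.repr x
  let d : HC n := v.repr x
  have hc : ∀ a, c a = inner ℂ (u a) x := fun a => u.repr_apply_apply x a
  have hd : ∀ b, d b = inner ℂ (v b) x := fun b => v.repr_apply_apply x b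
  have hcn : ‖c‖ = ‖x‖ := LinearIsometryEquiv.norm_map _ _
  have hdn : ‖d‖ = ‖x‖ := LinearIsometryEquiv.norm_map _ _
  obtain ⟨N, hN⟩ : ∃ N : ℕ, ∀ a b, δ⁻¹ / 2 ^ (N + 1) * ‖α a - β b‖ ≤ 1 / 2 := by
    obtain ⟨R, hR⟩ : ∃ R : ℝ, ∀ a b, ‖α a - β b‖ ≤ R := by
      obtain ⟨R, hR⟩ := (Set.finite_range (fun p : Fin n × Fin n => ‖α p.1 - β p.2‖)).bddAbove
      exact ⟨R, fun a b => hR ⟨(a, b), rfl⟩⟩
    obtain ⟨N, hN⟩ := pow_unbounded_of_one_lt (δ⁻¹ * R) (by norm_num : (1 : ℝ) < 2)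
    refine ⟨N, fun a b => ?_⟩
    have h1 : δ⁻¹ * ‖α a - β b‖ ≤ δ⁻¹ * R := mul_le_mul_of_nonneg_left (hR a b) (by positivity)
    rw [div_mul_eq_mul_div, div_le_iff₀ (by positivity), pow_succ]
    linarith
  -- the inner product
  have e1 : ((‖x‖ ^ 2 : ℝ) : ℂ) = ∑ p : Fin n × Fin n,
      conj (c p.1) * d p.2 * inner ℂ (u p.1) (v p.2) := by
    have h1 : inner ℂ (∑ a, c a • u a) (∑ b, d b • v b) = ((‖x‖ ^ 2 : ℝ) : ℂ) := by
      rw [u.sum_repr, v.sum_repr, inner_self_eq_norm_sq_to_K]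
      push_cast
      rfl
    rw [← h1, Fintype.sum_prod_type, sum_inner]
    refine Finset.sum_congr rfl (fun a _ => ?_)
    rw [inner_sum]
    refine Finset.sum_congr rfl (fun b _ => ?_)
    rw [inner_smul_left, inner_smul_right]
    ring
  have e2 : ∀ p : Fin n × Fin n, conj (c p.1) * d p.2 * inner ℂ (u p.1) (v p.2) =
      ∑ k ∈ Finset.range (N + 1), ∑ j : Fin K, ((δ⁻¹ / 2 ^ k : ℝ) : ℂ) *
        ((conj (c p.1) * d p.2 * inner ℂ (u p.1) (D j (v p.2))) *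
          ps j ((δ⁻¹ / 2 ^ k) • (α p.1 - β p.2))) := by
    rintro ⟨a, b⟩
    by_cases hca : c a = 0
    · simp [hca]
    by_cases hdb : d b = 0
    · simp [hdb]
    have h2 : 1 ≤ δ⁻¹ * ‖α a - β b‖ := by
      rw [inv_mul_eq_div, one_le_div hδ]
      exact hx a b (by rwa [← hc]) (by rwa [← hd])
    have h3 := telescope (α a - β b) δ⁻¹ (by positivity) N h2 (hN a b)
    have h4 := congrArg (fun r : ℝ => (r : ℂ)) h3
    simp only [Complex.ofReal_one] at h4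
    rw [← mul_one (conj (c a) * d b * inner ℂ (u a) (v b)), ← h4]
    push_cast
    rw [Finset.mul_sum]
    refine Finset.sum_congr rfl (fun k _ => ?_)
    rw [Finset.mul_sum]
    refine Finset.sum_congr rfl (fun j _ => ?_)
    rw [hY, ps, PiLp.sub_apply]
    push_cast
    ring
  have e3 : ((‖x‖ ^ 2 : ℝ) : ℂ) = ∑ k ∈ Finset.range (N + 1), ∑ j : Fin K,
      ((δ⁻¹ / 2 ^ k : ℝ) : ℂ) * ∑ p : Fin n × Fin n,
        ((conj (c p.1) * d p.2 * inner ℂ (u p.1) (D j (v p.2))) *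
          ps j ((δ⁻¹ / 2 ^ k) • (α p.1 - β p.2))) := by
    rw [e1, Finset.sum_congr rfl (fun p _ => e2 p), Finset.sum_comm]
    refine Finset.sum_congr rfl (fun k _ => ?_)
    rw [Finset.sum_comm]
    refine Finset.sum_congr rfl (fun j _ => ?_)
    rw [Finset.mul_sum]
  have e4 : ‖((‖x‖ ^ 2 : ℝ) : ℂ)‖ ≤ ∑ k ∈ Finset.range (N + 1), ∑ j : Fin K,
      (δ⁻¹ / 2 ^ k) * (Lj j * (‖c‖ * (M * ‖d‖))) := by
    rw [e3]
    refine (norm_sum_le _ _).trans (Finset.sum_le_sum fun k _ => ?_)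
    refine (norm_sum_le _ _).trans (Finset.sum_le_sum fun j _ => ?_)
    rw [norm_mul, Complex.norm_real, Real.norm_of_nonneg (by positivity)]
    exact mul_le_mul_of_nonneg_left (piece_bound u v (D j) (hD j) c d α β j _) (by positivity)
  rw [Complex.norm_real, Real.norm_of_nonneg (by positivity), hcn, hdn] at e4
  refine e4.trans ?_
  have e5 : ∀ k ∈ Finset.range (N + 1), ∑ j : Fin K,
      (δ⁻¹ / 2 ^ k) * (Lj j * (‖x‖ * (M * ‖x‖))) = (LL K * M / δ * ‖x‖ ^ 2) * (1 / 2) ^ k := by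
    intro k _
    rw [LL, ← Finset.mul_sum, ← Finset.sum_mul]
    rw [one_div, inv_pow]
    field_simp
  rw [Finset.sum_congr rfl e5, ← Finset.mul_sum]
  have e6 : ∑ k ∈ Finset.range (N + 1), ((1 : ℝ) / 2) ^ k ≤ 2 := by
    have h := sum_geometric_two_le (N + 1)
    exact h
  by_cases hx0 : ‖x‖ = 0
  · rw [hx0]
    simp
  have hM0 : 0 ≤ LL K * M := by
    unfold LL
    rw [Finset.sum_mul]
    refine Finset.sum_nonneg fun j _ => mul_nonneg (Lj_nonneg j) ?_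
    have h1 := (norm_nonneg _).trans (hD j x)
    have h2 : 0 < ‖x‖ := lt_of_le_of_ne (norm_nonneg _) (Ne.symm hx0)
    exact nonneg_of_mul_nonneg_left h1 h2
  calc LL K * M / δ * ‖x‖ ^ 2 * ∑ k ∈ Finset.range (N + 1), ((1 : ℝ) / 2) ^ k
      ≤ LL K * M / δ * ‖x‖ ^ 2 * 2 := mul_le_mul_of_nonneg_left e6 (by positivity)
    _ = 2 * LL K * M / δ * ‖x‖ ^ 2 := by ring

end Pool.Agent.X326.Spec
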