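import Mathlib

/-!
# Dyadic pieces of the kernel `x / |x|^2` and their Fourier transforms
-/

set_option autoImplicit false

open scoped FourierTransform ContDiff
open MeasureTheory

namespace Pool.Agent.X326.Spec

/-- Euclidean space -/
abbrev EK (K : ℕ) : Type := EuclideanSpace ℝ (Fin K)

variable (K : ℕ)

/-- the cutoff function -/
noncomputable def chi : ContDiffBump (0 : EK K) := ⟨1 / 2, 1, by norm_num, by norm_num⟩

variable {K}

theorem chi_one {x : EK K} (h : ‖x‖ ≤ 1 / 2) : chi K x = 1 := by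
  apply ContDiffBump.one_of_mem_closedBall
  rw [mem_closedBall_zero_iff]
  exact h

theorem chi_zero {x : EK K} (h : 1 ≤ ‖x‖) : chi K x = 0 := by
  apply ContDiffBump.zero_of_le_dist
  rw [dist_zero_right]
  exact h

/-- the dyadic piece of the kernel, real version -/
noncomputable def psR (j : Fin K) (x : EK K) : ℝ :=
  x j / ‖x‖ ^ 2 * (chi K ((1 / 2 : ℝ) • x) - chi K x)

theorem psR_contDiff (j : Fin K) : ContDiff ℝ ∞ (psR j) := by
  rw [contDiff_iff_contDiffAt]
  intro x
  by_cases hx : x = 0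
  · subst hx
    have h : psR j =ᶠ[nhds (0 : EK K)] fun _ => (0 : ℝ) := by
      filter_upwards [Metric.ball_mem_nhds (0 : EK K) (by norm_num : (0 : ℝ) < 1 / 2)] with y hy
      rw [mem_ball_zero_iff] at hy
      have h1 : chi K y = 1 := chi_one hy.le
      have h2 : chi K ((1 / 2 : ℝ) • y) = 1 := by
        apply chi_one
        rw [norm_smul]
        norm_num
        linarith [norm_nonneg y]
      rw [psR, h1, h2, sub_self, mul_zero]
    exact contDiffAt_const.congr_of_eventuallyEq h
  · have h1 : ContDiffAt ℝ ∞ (fun x : EK K => x j) x :=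
      (EuclideanSpace.proj (𝕜 := ℝ) j).contDiff.contDiffAt
    have h2 : ContDiffAt ℝ ∞ (fun x : EK K => ‖x‖ ^ 2) x := (contDiff_norm_sq ℝ).contDiffAt
    have h3 : ContDiffAt ℝ ∞ (fun x : EK K => (chi K : EK K → ℝ) x) x := (chi K).contDiffAt
    have h4 : ContDiffAt ℝ ∞ (fun x : EK K => (chi K : EK K → ℝ) ((1 / 2 : ℝ) • x)) x :=
      ((chi K).contDiff.comp (contDiff_const_smul (1 / 2 : ℝ))).contDiffAt
    exact (h1.div h2 (pow_ne_zero _ (norm_ne_zero_iff.2 hx))).mul (h4.sub h3)

/-- the dyadic piece of the kernel -/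
noncomputable def ps (j : Fin K) (x : EK K) : ℂ := (psR j x : ℂ)

theorem ps_contDiff (j : Fin K) : ContDiff ℝ ∞ (ps j) :=
  Complex.ofRealCLM.contDiff.comp (psR_contDiff j)

theorem ps_compact (j : Fin K) : HasCompactSupport (ps j) := by
  apply HasCompactSupport.intro (isCompact_closedBall (0 : EK K) 2)
  intro x hx
  rw [mem_closedBall_zero_iff, not_le] at hx
  have h1 : chi K x = 0 := chi_zero (by linarith)
  have h2 : chi K ((1 / 2 : ℝ) • x) = 0 := by
    apply chi_zero
    rw [norm_smul]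
    norm_num
    linarith
  rw [ps, psR, h1, h2, sub_self, mul_zero, Complex.ofReal_zero]

/-- the Schwartz function -/
noncomputable def psS (j : Fin K) : SchwartzMap (EK K) ℂ :=
  (ps_compact j).toSchwartzMap (ps_contDiff j)

/-- the Fourier transform -/
noncomputable def phi (j : Fin K) : SchwartzMap (EK K) ℂ := 𝓕 (psS j)

/-- the `L¹` norm of the Fourier transform -/
noncomputable def Lj (j : Fin K) : ℝ := ∫ t, ‖phi j t‖

theorem Lj_nonneg (j : Fin K) : 0 ≤ Lj j := integral_nonneg fun _ => norm_nonneg _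

theorem ps_repr (j : Fin K) (x : EK K) :
    ps j x = ∫ t, Complex.exp ((2 * Real.pi * inner ℝ t x : ℝ) * Complex.I) * phi j t := by
  have h : 𝓕⁻ (phi j) = psS j := FourierTransform.fourierInv_fourier_eq (psS j)
  have h1 : ps j x = (𝓕⁻ (phi j)) x := by
    rw [h]
    rfl
  rw [h1, SchwartzMap.fourierInv_coe, Real.fourierInv_eq']
  rfl

theorem exp_norm (r : ℝ) : ‖Complex.exp ((r : ℂ) * Complex.I)‖ = 1 := Complex.norm_exp_ofReal_mul_I r

theorem integrable_exp (j : Fin K) (x : EK K) :
    Integrable fun t => Complex.exp ((2 * Real.pi * inner ℝ t x : ℝ) * Complex.I) * phi j t := by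
  refine (phi j).integrable.bdd_mul (c := 1) ?_ ?_
  · apply Continuous.aestronglyMeasurable
    fun_prop
  · filter_upwards with t
    rw [exp_norm]

/-- the multiplier estimate -/
theorem mult_bound {ι : Type} [Fintype ι] (j : Fin K) (G : ι → ℂ) (X : ι → EK K) {M : ℝ}
    (hM : ∀ t : EK K,
      ‖∑ i, G i * Complex.exp ((2 * Real.pi * inner ℝ t (X i) : ℝ) * Complex.I)‖ ≤ M) :
    ‖∑ i, G i * ps j (X i)‖ ≤ Lj j * M := by
  have h1 : ∑ i, G i * ps j (X i) = ∫ t, (∑ i, G i *
      Complex.exp ((2 * Real.pi * inner ℝ t (X i) : ℝ) * Complex.I)) * phi j t := by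
    simp_rw [Finset.sum_mul]
    rw [integral_finsetSum]
    · refine Finset.sum_congr rfl (fun i _ => ?_)
      rw [ps_repr, ← integral_const_mul]
      refine integral_congr_ae (Filter.Eventually.of_forall fun t => ?_)
      simp only
      ring
    · intro i _
      simpa [mul_assoc] using (integrable_exp j (X i)).const_mul (G i)
  rw [h1]
  calc ‖∫ t, (∑ i, G i * Complex.exp ((2 * Real.pi * inner ℝ t (X i) : ℝ) * Complex.I)) * phi j t‖
      ≤ ∫ t, ‖(∑ i, G i * Complex.exp ((2 * Real.pi * inner ℝ t (X i) : ℝ) * Complex.I)) *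
          phi j t‖ := norm_integral_le_integral_norm _
    _ ≤ ∫ t, M * ‖phi j t‖ := by
        apply integral_mono_of_nonneg (Filter.Eventually.of_forall fun t => norm_nonneg _)
          ((phi j).integrable.norm.const_mul M)
        refine Filter.Eventually.of_forall fun t => ?_
        simp only [norm_mul]
        exact mul_le_mul_of_nonneg_right (hM t) (norm_nonneg _)
    _ = Lj j * M := by
        rw [integral_const_mul, Lj, mul_comm]

/-- the telescoping identity -/
theorem telescope (x : EK K) (s : ℝ) (hs : 0 < s) (N : ℕ) (h1 : 1 ≤ s * ‖x‖)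
    (h2 : s / 2 ^ (N + 1) * ‖x‖ ≤ 1 / 2) :
    ∑ k ∈ Finset.range (N + 1), ∑ j : Fin K, (s / 2 ^ k) * x j * psR j ((s / 2 ^ k) • x) = 1 := by
  have hx : ‖x‖ ≠ 0 := by
    intro h
    rw [h, mul_zero] at h1
    linarith
  have h3 : ∀ k ∈ Finset.range (N + 1),
      ∑ j : Fin K, (s / 2 ^ k) * x j * psR j ((s / 2 ^ k) • x) =
        chi K ((s / 2 ^ (k + 1)) • x) - chi K ((s / 2 ^ k) • x) := by
    intro k _
    have hk : (0 : ℝ) < s / 2 ^ k := by positivity
    have h4 : ((1 / 2 : ℝ) • ((s / 2 ^ k) • x)) = (s / 2 ^ (k + 1)) • x := by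
      rw [smul_smul]
      congr 1
      rw [pow_succ]
      field_simp
    have h5 : ∑ j : Fin K, (x j) ^ 2 = ‖x‖ ^ 2 := by
      rw [EuclideanSpace.norm_sq_eq]
      simp
    have h6 : ∀ j : Fin K, (s / 2 ^ k) * x j * psR j ((s / 2 ^ k) • x) =
        (x j) ^ 2 * ((‖x‖ ^ 2)⁻¹ * (chi K ((s / 2 ^ (k + 1)) • x) - chi K ((s / 2 ^ k) • x))) := by
      intro j
      unfold psR
      rw [h4, norm_smul, PiLp.smul_apply, smul_eq_mul, Real.norm_of_nonneg hk.le]
      field_simp
    rw [Finset.sum_congr rfl (fun j _ => h6 j), ← Finset.sum_mul, h5, ← mul_assoc,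
      mul_inv_cancel₀ (pow_ne_zero _ hx), one_mul]
  rw [Finset.sum_congr rfl h3, Finset.sum_range_sub (fun k => chi K ((s / 2 ^ k) • x))]
  have h7 : chi K ((s / 2 ^ (N + 1)) • x) = 1 := by
    apply chi_one
    rw [norm_smul, Real.norm_of_nonneg (by positivity)]
    exact h2
  have h8 : chi K ((s / 2 ^ 0) • x) = 0 := by
    apply chi_zero
    rw [norm_smul, pow_zero, div_one, Real.norm_of_nonneg hs.le]
    exact h1
  rw [h7, h8, sub_zero]

end Pool.Agent.X326.Spec
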