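import Pool.Agent.X326.Spec.Est

/-!
# Matching the joint eigenvalues
-/

set_option autoImplicit false

namespace Pool.Agent.X326.Spec

variable {K n : ℕ}

theorem matching_lt (u v : OrthonormalBasis (Fin n) ℂ (HC n)) (D : Fin K → HC n →ₗ[ℂ] HC n)
    {M : ℝ} (hD : ∀ j y, ‖D j y‖ ≤ M * ‖y‖) (α β : Fin n → EK K)
    (hY : ∀ j a b, inner ℂ (u a) (D j (v b)) = ((α a j - β b j : ℝ) : ℂ) * inner ℂ (u a) (v b))
    {δ : ℝ} (hδ : 0 < δ) (hMδ : 2 * LL K * M < δ) :
    ∃ π : Equiv.Perm (Fin n), ∀ a, ‖α a - β (π a)‖ < δ := by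
  classical
  let t : Fin n → Finset (Fin n) := fun a => Finset.univ.filter fun b => ‖α a - β b‖ < δ
  have hall : ∀ S : Finset (Fin n), S.card ≤ (S.biUnion t).card := by
    intro S
    by_contra hlt
    rw [not_le] at hlt
    let T := S.biUnion t
    let F : (S → ℂ) →ₗ[ℂ] (T → ℂ) := LinearMap.pi fun b =>
      (innerSL ℂ (v b)).toLinearMap ∘ₗ ∑ a : S, (LinearMap.proj a).smulRight (u a)
    have hF : LinearMap.ker F ≠ ⊥ := by
      apply LinearMap.ker_ne_bot_of_finrank_lt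
      rw [Module.finrank_fintype_fun_eq_card, Module.finrank_fintype_fun_eq_card,
        Fintype.card_coe, Fintype.card_coe]
      exact hlt
    obtain ⟨c, hc, hc0⟩ := (Submodule.ne_bot_iff _).1 hF
    let x : HC n := ∑ a : S, c a • u a
    have hux : ∀ a : S, inner ℂ (u a) x = c a := by
      intro a
      simp only [x]
      rw [inner_sum, Finset.sum_eq_single a]
      · rw [inner_smul_right, u.inner_eq_ite, if_pos rfl, mul_one]
      · intro b _ hb
        rw [inner_smul_right, u.inner_eq_ite, if_neg, mul_zero]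
        exact fun h => hb (Subtype.ext h.symm)
      · intro h
        exact absurd (Finset.mem_univ a) h
    have hux0 : ∀ a, a ∉ S → inner ℂ (u a) x = 0 := by
      intro a ha
      simp only [x]
      rw [inner_sum]
      refine Finset.sum_eq_zero fun b _ => ?_
      rw [inner_smul_right, u.inner_eq_ite, if_neg, mul_zero]
      rintro rfl
      exact ha b.2
    have hvx0 : ∀ b, b ∈ T → inner ℂ (v b) x = 0 := by
      intro b hb
      have h1 := congrFun (LinearMap.mem_ker.1 hc) ⟨b, hb⟩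
      simp only [F, LinearMap.pi_apply, LinearMap.comp_apply, LinearMap.sum_apply,
        LinearMap.smulRight_apply, LinearMap.proj_apply, ContinuousLinearMap.coe_coe,
        innerSL_apply_apply, Pi.zero_apply] at h1
      exact h1
    have hx0 : x ≠ 0 := by
      intro h
      apply hc0
      funext a
      rw [← hux a, h, inner_zero_right]
      rfl
    have h2 := vector_bound u v D hD α β hY hδ x (by
      intro a b ha hb
      by_contra h3
      rw [not_le] at h3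
      apply hb
      apply hvx0
      have haS : a ∈ S := by
        by_contra h4
        exact ha (hux0 a h4)
      exact Finset.mem_biUnion.2 ⟨a, haS, Finset.mem_filter.2 ⟨Finset.mem_univ _, h3⟩⟩)
    have h5 : 0 < ‖x‖ ^ 2 := by
      have := norm_pos_iff.2 hx0
      positivity
    have h6 : 2 * LL K * M / δ < 1 := by
      rw [div_lt_one hδ]
      exact hMδ
    nlinarith
  obtain ⟨f, hf, hft⟩ := (Finset.all_card_le_biUnion_card_iff_exists_injective t).1 hall
  refine ⟨Equiv.ofBijective f (Finite.injective_iff_bijective.1 hf), fun a => ?_⟩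
  exact (Finset.mem_filter.1 (hft a)).2

theorem matching_le (u v : OrthonormalBasis (Fin n) ℂ (HC n)) (D : Fin K → HC n →ₗ[ℂ] HC n)
    {M : ℝ} (hM : 0 ≤ M) (hD : ∀ j y, ‖D j y‖ ≤ M * ‖y‖) (α β : Fin n → EK K)
    (hY : ∀ j a b, inner ℂ (u a) (D j (v b)) = ((α a j - β b j : ℝ) : ℂ) * inner ℂ (u a) (v b)) :
    ∃ π : Equiv.Perm (Fin n), ∀ a, ‖α a - β (π a)‖ ≤ 2 * LL K * M := by
  classical
  have h0 : 0 ≤ 2 * LL K * M := mul_nonneg (mul_nonneg (by norm_num) (LL_nonneg K)) hM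
  let P : Finset (Fin n × Fin n) :=
    Finset.univ.filter fun p => 2 * LL K * M < ‖α p.1 - β p.2‖
  by_cases hP : P.Nonempty
  · obtain ⟨p, hp, hmin⟩ := P.exists_min_image (fun p => ‖α p.1 - β p.2‖) hP
    have hp1 := (Finset.mem_filter.1 hp).2
    obtain ⟨π, hπ⟩ := matching_lt u v D hD α β hY (lt_of_le_of_lt h0 hp1) hp1
    refine ⟨π, fun a => ?_⟩
    by_contra h1
    rw [not_le] at h1
    have h2 := hmin (a, π a) (Finset.mem_filter.2 ⟨Finset.mem_univ _, h1⟩)
    exact absurd (hπ a) (not_lt.2 h2)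
  · refine ⟨1, fun a => ?_⟩
    by_contra h1
    rw [not_le] at h1
    exact hP ⟨(a, a), Finset.mem_filter.2 ⟨Finset.mem_univ _, h1⟩⟩

/-- `α` is a list of the joint eigenvalues, with multiplicity, of the tuple `A`: there is an
orthonormal basis of joint eigenvectors with the joint eigenvalues `α j`. -/
def JointEigenvalues (A : Fin K → Matrix (Fin n) (Fin n) ℂ)
    (α : Fin n → EuclideanSpace ℝ (Fin K)) : Prop :=
  ∃ u : OrthonormalBasis (Fin n) ℂ (EuclideanSpace ℂ (Fin n)),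
    ∀ (J : Fin K) (j : Fin n), Matrix.toEuclideanLin (A J) (u j) = ((α j J : ℝ) : ℂ) • u j

/-- The operator norm of the map `x ↦ (D¹ x, …, Dᴷ x)` from `ℂⁿ` to `(ℂⁿ)ᴷ`. -/
noncomputable def tupleNorm (D : Fin K → Matrix (Fin n) (Fin n) ℂ) : ℝ :=
  sInf {M : ℝ | 0 ≤ M ∧ ∀ x : EuclideanSpace ℂ (Fin n),
    ∑ J, ‖Matrix.toEuclideanLin (D J) x‖ ^ 2 ≤ (M * ‖x‖) ^ 2}

/-- A `K`-tuple: pairwise commuting Hermitian matrices. -/
def IsTuple (A : Fin K → Matrix (Fin n) (Fin n) ℂ) : Prop :=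
  (∀ J, (A J).IsHermitian) ∧ ∀ I J, A I * A J = A J * A I

theorem tupleNorm_nonneg (D : Fin K → Matrix (Fin n) (Fin n) ℂ) : 0 ≤ tupleNorm D :=
  Real.sInf_nonneg fun _ h => h.1

theorem tupleNorm_set_nonempty (D : Fin K → Matrix (Fin n) (Fin n) ℂ) :
    {M : ℝ | 0 ≤ M ∧ ∀ x : EuclideanSpace ℂ (Fin n),
      ∑ J, ‖Matrix.toEuclideanLin (D J) x‖ ^ 2 ≤ (M * ‖x‖) ^ 2}.Nonempty := by
  refine ⟨Real.sqrt (∑ J, ‖(Matrix.toEuclideanLin (D J)).toContinuousLinearMap‖ ^ 2),
    Real.sqrt_nonneg _, fun x => ?_⟩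
  rw [mul_pow, Real.sq_sqrt (Finset.sum_nonneg fun _ _ => by positivity), Finset.sum_mul]
  refine Finset.sum_le_sum fun J _ => ?_
  rw [← mul_pow]
  exact pow_le_pow_left₀ (norm_nonneg _)
    ((Matrix.toEuclideanLin (D J)).toContinuousLinearMap.le_opNorm x) 2

theorem tupleNorm_bound (D : Fin K → Matrix (Fin n) (Fin n) ℂ) (J : Fin K)
    (x : EuclideanSpace ℂ (Fin n)) :
    ‖Matrix.toEuclideanLin (D J) x‖ ≤ tupleNorm D * ‖x‖ := by
  by_cases hx : ‖x‖ = 0
  · have hx0 : x = 0 := norm_eq_zero.1 hx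
    rw [hx0, map_zero, norm_zero, mul_zero]
  · have hx' : 0 < ‖x‖ := lt_of_le_of_ne (norm_nonneg _) (Ne.symm hx)
    rw [← div_le_iff₀ hx']
    refine le_csInf (tupleNorm_set_nonempty D) ?_
    rintro M ⟨hM, h⟩
    rw [div_le_iff₀ hx']
    have h1 : ‖Matrix.toEuclideanLin (D J) x‖ ^ 2 ≤ (M * ‖x‖) ^ 2 :=
      (Finset.single_le_sum (f := fun J => ‖Matrix.toEuclideanLin (D J) x‖ ^ 2)
        (fun _ _ => by positivity) (Finset.mem_univ J)).trans (h x)
    exact le_of_sq_le_sq h1 (mul_nonneg hM hx'.le)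

theorem main (A B : Fin K → Matrix (Fin n) (Fin n) ℂ) (hA : IsTuple A)
    (α β : Fin n → EuclideanSpace ℝ (Fin K)) (hα : JointEigenvalues A α)
    (hβ : JointEigenvalues B β) :
    ∃ π : Equiv.Perm (Fin n), ∀ j, ‖α j - β (π j)‖ ≤ 2 * LL K * tupleNorm (fun J => A J - B J) := by
  obtain ⟨u, hu⟩ := hα
  obtain ⟨v, hv⟩ := hβ
  refine matching_le u v (fun J => Matrix.toEuclideanLin (A J - B J)) (tupleNorm_nonneg _)
    (fun J y => tupleNorm_bound (fun J => A J - B J) J y) α β ?_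
  intro J a b
  rw [map_sub, LinearMap.sub_apply, inner_sub_right, hv, inner_smul_right]
  have h1 : inner ℂ (u a) (Matrix.toEuclideanLin (A J) (v b)) =
      ((α a J : ℝ) : ℂ) * inner ℂ (u a) (v b) := by
    have h2 : (Matrix.toEuclideanLin (A J)).IsSymmetric :=
      Matrix.isSymmetric_toEuclideanLin_iff.2 (hA.1 J)
    rw [← h2, hu, inner_smul_left, Complex.conj_ofReal]
  rw [h1]
  push_cast
  ring

end Pool.Agent.X326.Spec
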